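import Pool.Agent.H.MP_911b3a_co.A

set_option autoImplicit false

namespace Pool.Agent.H.MP_911b3a_co

open Finset Classical

def AvA (n : ℕ) (w : ℕ → ℕ) : Prop :=
  ∀ a b c d, a < b → b < c → c < d → d < n → w b < w a → w a < w d → w c ≤ w d
def pre (w : ℕ → ℕ) (q : ℕ) : Prop := ∀ a b, a < b → b < q → w a ≤ w b
def actA (n : ℕ) (w : ℕ → ℕ) (q : ℕ) : Prop :=
  ∀ a b c, a < b → b < q → q ≤ c → c < n → w b < w a → w c ≤ w a
noncomputable def l1 (S : ℕ → Prop) (n : ℕ) (w : ℕ → ℕ) : ℕ :=
  ((range (n + 1)).filter (fun q => pre w q ∧ opn S w q)).card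
noncomputable def k1 (S : ℕ → Prop) (n : ℕ) (w : ℕ → ℕ) : ℕ :=
  ((range (n + 1)).filter (fun q => ¬ pre w q ∧ actA n w q ∧ opn S w q)).card

variable {S : ℕ → Prop} {w : ℕ → ℕ} {n p : ℕ}

lemma AvA_ins (hw : ∀ i < n, w i < n) (hp : p ≤ n) :
    AvA (n + 1) (insF w p n) ↔ AvA n w ∧ actA n w p := by
  constructor
  · intro h
    refine ⟨fun a b c d h1 h2 h3 h4 => ?_, fun a b c h1 h2 h3 h4 => ?_⟩
    · have := up_c p a; have := up_c p b; have := up_c p c; have := up_c p d
      have := h (up p a) (up p b) (up p c) (up p d) (by omega) (by omega) (by omega) (by omega)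
      simpa only [ins_up] using this
    · have := h a b p (c + 1) h1 h2 (by omega) (by omega)
      rw [ins_lo h2, ins_lo (h1.trans h2), ins_eq, ins_hi h3] at this
      have := hw c h4
      omega
  · rintro ⟨g1, g2⟩ a b c d h1 h2 h3 h4
    rcases up_or p d with rfl | ⟨d, rfl⟩
    · rw [ins_eq, ins_lo h3]
      have := hw c (by omega)
      omega
    have := up_c p d
    have := hw d (by omega)
    rcases up_or p a with rfl | ⟨a, rfl⟩
    · rw [ins_eq, ins_up]; omega
    have := up_c p a
    have := hw a (by omega)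
    rcases up_or p b with rfl | ⟨b, rfl⟩
    · rw [ins_eq, ins_up]; omega
    have := up_c p b
    rcases up_or p c with rfl | ⟨c, rfl⟩
    · simp only [ins_eq, ins_up]
      have := g2 a b d (by omega) (by omega) (by omega) (by omega)
      omega
    have := up_c p c
    simp only [ins_up]
    exact g1 a b c d (by omega) (by omega) (by omega) (by omega)

lemma pre_mono {q : ℕ} (h : pre w p) (hq : q ≤ p) : pre w q :=
  fun a b h1 h2 => h a b h1 (by omega)

lemma pre_act (h : pre w p) : actA n w p := fun a b _ h1 h2 _ _ h5 =>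
  absurd (h a b h1 h2) (not_le.2 h5)

lemma pre_lo {q : ℕ} (h : q ≤ p) : pre (insF w p n) q ↔ pre w q := by
  refine forall_congr' fun a => forall_congr' fun b => forall_congr' fun h1 =>
    forall_congr' fun h2 => ?_
  rw [ins_lo (by omega), ins_lo (by omega)]

lemma pre_eq (hw : ∀ i < n, w i < n) (hp : p ≤ n) : pre (insF w p n) (p + 1) ↔ pre w p := by
  refine ⟨fun h => (pre_lo le_rfl).1 (pre_mono h (by omega)), fun h a b h1 h2 => ?_⟩
  rcases Nat.lt_succ_iff_lt_or_eq.1 h2 with g | rfl
  · rw [ins_lo g, ins_lo (by omega)]; exact h a b h1 g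
  · rw [ins_eq, ins_lo h1]; exact (hw a (by omega)).le

lemma pre_hi (hw : ∀ i < n, w i < n) {q : ℕ} (h : p < q) (hq : q ≤ n) :
    ¬ pre (insF w p n) (q + 1) := by
  intro g
  have := g p (p + 1) (by omega) (by omega)
  rw [ins_eq, ins_hi le_rfl] at this
  have := hw p (by omega)
  omega

lemma actA_lo (hw : ∀ i < n, w i < n) (hp : p ≤ n) {q : ℕ} (h : q ≤ p) (g : ¬ pre w q) :
    ¬ actA (n + 1) (insF w p n) q := by
  intro h'
  refine g fun a b h1 h2 => ?_
  have := h' a b p h1 h2 h (by omega)
  rw [ins_eq, ins_lo (by omega), ins_lo (by omega)] at this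
  have := hw a (by omega)
  omega

lemma actA_hi (hw : ∀ i < n, w i < n) {q : ℕ} (h : p ≤ q) :
    actA (n + 1) (insF w p n) (q + 1) ↔ actA n w q := by
  constructor
  · intro g a b c h1 h2 h3 h4
    have := up_c p a; have := up_c p b; have := up_c p c
    have := g (up p a) (up p b) (up p c) (by omega) (by omega) (by omega) (by omega)
    simpa only [ins_up] using this
  · intro g a b c h1 h2 h3 h4
    obtain ⟨c, rfl⟩ : ∃ j, c = j + 1 := ⟨c - 1, by omega⟩
    rw [ins_hi (by omega)]
    have := hw c (by omega)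
    rcases up_or p a with rfl | ⟨a, rfl⟩
    · rw [ins_eq]; omega
    have := up_c p a
    have := hw a (by omega)
    rcases up_or p b with rfl | ⟨b, rfl⟩
    · rw [ins_eq, ins_up]; omega
    have := up_c p b
    simp only [ins_up]
    exact g a b c (by omega) (by omega) (by omega) (by omega)

lemma card0 {s : Finset ℕ} {R : ℕ → Prop} [DecidablePred R] (h : ∀ q ∈ s, ¬ R q) : (s.filter R).card = 0 := by
  rw [card_eq_zero, filter_eq_empty_iff]; exact h

lemma lab1 (hw : ∀ i < n, w i < n) (hp : p ≤ n) (h : pre w p) :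
    l1 S (n + 1) (insF w p n) = (((range (n + 1)).filter (fun q => pre w q ∧ opn S w q)).filter
      (fun q => q ≤ p)).card + (if S n then 0 else 1) ∧
    k1 S (n + 1) (insF w p n) = k1 S n w + l1 S n w -
      (((range (n + 1)).filter (fun q => pre w q ∧ opn S w q)).filter (fun q => q ≤ p)).card := by
  constructor
  · rw [l1, split _ hp, card0 (R := fun q => p < q ∧ _)
      (fun q hq g => pre_hi hw g.1 (by rw [mem_range] at hq; omega) g.2.1), add_zero, filter_filter]
    congr 1
    · congr 1
      refine filter_congr fun q _ => ?_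
      by_cases g : q ≤ p
      · simp [g, pre_lo g, opn_lo g]
      · simp [g]
    · simp [pre_eq hw hp, h, opn_eq]
  · have e := rk0 ((range (n + 1)).filter (fun q => pre w q ∧ opn S w q)) p
    rw [k1, split _ hp, card0 (R := fun q => q ≤ p ∧ _)
      (fun q hq g => g.2.1 ((pre_lo g.1).2 (pre_mono h g.1))), if_neg (by simp [pre_eq hw hp, h]),
      l1, ← e, k1, filter_filter, filter_filter, zero_add, zero_add]
    have : ((range (n + 1)).filter (fun q => p < q ∧ ¬ pre (insF w p n) (q + 1) ∧
        actA (n + 1) (insF w p n) (q + 1) ∧ opn S (insF w p n) (q + 1))).card =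
        ((range (n + 1)).filter (fun q => ¬ pre w q ∧ actA n w q ∧ opn S w q)).card +
        ((range (n + 1)).filter (fun q => (pre w q ∧ opn S w q) ∧ p < q)).card := by
      simp only [card_filter, ← sum_add_distrib]
      refine sum_congr rfl fun q hq => ?_
      rw [mem_range] at hq
      by_cases g : p < q
      · have := pre_act (n := n) (w := w) (p := q)
        by_cases g1 : pre w q <;>
          simp [g, g1, pre_hi hw g (by omega), actA_hi hw g.le, opn_hi g, this]
      · simp [g, pre_mono h (not_lt.1 g)]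
    omega

lemma lab2 (hw : ∀ i < n, w i < n) (hp : p ≤ n) (h : ¬ pre w p) (h' : actA n w p) :
    l1 S (n + 1) (insF w p n) = l1 S n w ∧
    k1 S (n + 1) (insF w p n) = (((range (n + 1)).filter
      (fun q => ¬ pre w q ∧ actA n w q ∧ opn S w q)).filter (fun q => p < q)).card +
      (if S n then 0 else 1) := by
  constructor
  · rw [l1, split _ hp, card0 (R := fun q => p < q ∧ _)
      (fun q hq g => pre_hi hw g.1 (by rw [mem_range] at hq; omega) g.2.1),
      if_neg (by simp [pre_eq hw hp, h]), l1]
    simp only [add_zero]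
    congr 1
    refine filter_congr fun q _ => ?_
    by_cases g : q ≤ p
    · simp [g, pre_lo g, opn_lo g]
    · have : ¬ pre w q := fun g1 => h (pre_mono g1 (by omega))
      simp [g, this]
  · rw [k1, split _ hp, card0 (R := fun q => q ≤ p ∧ _)
      (fun q hq g => actA_lo hw hp g.1 (fun g1 => g.2.1 ((pre_lo g.1).2 g1)) g.2.2.1), zero_add,
      add_comm, filter_filter]
    congr 1
    · congr 1
      refine filter_congr fun q hq => ?_
      rw [mem_range] at hq
      by_cases g : p < q
      · have : ¬ pre w q := fun g1 => h (pre_mono g1 (by omega))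
        simp [g, this, pre_hi hw g (by omega), actA_hi hw g.le, opn_hi g]
      · simp [g]
    · simp [pre_eq hw hp, h, opn_eq, actA_hi hw le_rfl, h']

lemma stepA (hw : ∀ i < n, w i < n) (φ : ℕ → ℕ → ℤ) :
    ∑ p ∈ range (n + 1), (if AvA (n + 1) (insF w p n) ∧ DS S (n + 1) (insF w p n) then
      φ (l1 S (n + 1) (insF w p n)) (k1 S (n + 1) (insF w p n)) else 0) =
    if AvA n w ∧ DS S n w then T (if S n then 0 else 1) φ (l1 S n w) (k1 S n w) else 0 := by
  by_cases h : AvA n w ∧ DS S n w
  swap
  · rw [if_neg h]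
    refine sum_eq_zero fun p hp => if_neg ?_
    have hp' : p ≤ n := by rw [mem_range] at hp; omega
    rw [AvA_ins hw hp', DS_ins hw hp']
    exact fun g => h ⟨g.1.1, g.2.1⟩
  have an : actA n w n := fun a b c _ _ h3 h4 => by omega
  have on := opn_end h.2
  rw [if_pos h, sum_congr rfl (g := fun p => if (actA n w p ∧ opn S w p) ∧ (S n → p < n) then
      φ (l1 S (n + 1) (insF w p n)) (k1 S (n + 1) (insF w p n)) else 0) (fun p hp => by
    have hp' : p ≤ n := by rw [mem_range] at hp; omega
    refine if_congr ?_ rfl rfl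
    rw [AvA_ins hw hp', DS_ins hw hp']
    tauto), sum_allowed S n (fun q => pre w q ∧ opn S w q)
      (fun q => ¬ pre w q ∧ actA n w q ∧ opn S w q) (fun q => actA n w q ∧ opn S w q) _
      (fun q => by have := pre_act (n := n) (w := w) (p := q); tauto) (fun q => by tauto) ⟨an, on⟩, T]
  refine congrArg₂ (· - ·) (congrArg₂ (· + ·) ?_ ?_) ?_
  · refine Eq.trans ?_ (rk1 _ (fun j => φ (j + if S n then 0 else 1) (k1 S n w + l1 S n w - j)))
    refine sum_congr rfl fun p hp => ?_
    rw [mem_filter, mem_range] at hp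
    have := lab1 (S := S) hw (by omega) hp.2.1
    rw [this.1, this.2]
  · refine Eq.trans ?_ (rk2 _ (fun j => φ (l1 S n w) (j + if S n then 0 else 1)))
    refine sum_congr rfl fun p hp => ?_
    rw [mem_filter, mem_range] at hp
    have := lab2 (S := S) hw (by omega) hp.2.1 hp.2.2.1
    rw [this.1, this.2]
  · by_cases hS : S n
    · simp only [hS, if_true]
      have c0 : ∀ s : Finset ℕ, s ⊆ range (n + 1) → (s.filter (fun q => n < q)).card = 0 :=
        fun s hs => card0 fun q hq => by have := mem_range.1 (hs hq); omega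
      by_cases g : pre w n
      · have := lab1 (S := S) hw le_rfl g
        have e := rk0 ((range (n + 1)).filter (fun q => pre w q ∧ opn S w q)) n
        rw [c0 _ (filter_subset _ _), add_zero] at e
        have e' : k1 S n w = 0 := card0 fun q hq g1 =>
          g1.1 (pre_mono g (by rw [mem_range] at hq; omega))
        rw [this.1, this.2, e, e', if_pos hS]
        simp [l1]
      · have := lab2 (S := S) hw le_rfl g an
        rw [this.1, this.2, c0 _ (filter_subset _ _), if_pos hS]
    · simp [hS]

end Pool.Agent.H.MP_911b3a_co
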