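import Pool.Agent.H.MP_911b3a_co.B

set_option autoImplicit false

namespace Pool.Agent.H.MP_911b3a_co

open Finset Classical

def AvB (n : ℕ) (w : ℕ → ℕ) : Prop :=
  ∀ a b c d, a < b → b < c → c < d → d < n → w d < w c → w c < w a → w b ≤ w a
def suf (n : ℕ) (w : ℕ → ℕ) (q : ℕ) : Prop := ∀ b c, q ≤ b → b < c → c < n → w b ≤ w c
def actB (n : ℕ) (w : ℕ → ℕ) (q : ℕ) : Prop :=
  ∀ a b c, a < q → q ≤ b → b < c → c < n → w c < w b → w a ≤ w b
noncomputable def l2 (S : ℕ → Prop) (n : ℕ) (w : ℕ → ℕ) : ℕ :=
  ((range (n + 1)).filter (fun q => suf n w q ∧ opn S w q)).card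
noncomputable def k2 (S : ℕ → Prop) (n : ℕ) (w : ℕ → ℕ) : ℕ :=
  ((range (n + 1)).filter (fun q => ¬ suf n w q ∧ actB n w q ∧ opn S w q)).card

variable {S : ℕ → Prop} {w : ℕ → ℕ} {n p : ℕ}

lemma AvB_ins (hw : ∀ i < n, w i < n) (hp : p ≤ n) :
    AvB (n + 1) (insF w p n) ↔ AvB n w ∧ actB n w p := by
  constructor
  · intro h
    refine ⟨fun a b c d h1 h2 h3 h4 => ?_, fun a b c h1 h2 h3 h4 => ?_⟩
    · have := up_c p a; have := up_c p b; have := up_c p c; have := up_c p d
      have := h (up p a) (up p b) (up p c) (up p d) (by omega) (by omega) (by omega) (by omega)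
      simpa only [ins_up] using this
    · have := h a p (b + 1) (c + 1) h1 (by omega) (by omega) (by omega)
      rw [ins_lo h1, ins_eq, ins_hi h2, ins_hi (by omega)] at this
      have := hw a (by omega)
      omega
  · rintro ⟨g1, g2⟩ a b c d h1 h2 h3 h4
    rcases up_or p d with rfl | ⟨d, rfl⟩
    · rw [ins_eq, ins_lo h3]
      have := hw c (by omega)
      omega
    have := up_c p d
    have := hw d (by omega)
    rcases up_or p c with rfl | ⟨c, rfl⟩
    · rw [ins_eq, ins_lo (h1.trans h2)]
      have := hw a (by omega)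
      omega
    have := up_c p c
    have := hw c (by omega)
    rcases up_or p b with rfl | ⟨b, rfl⟩
    · simp only [ins_eq, ins_up, ins_lo h1]
      have := g2 a c d (by omega) (by omega) (by omega) (by omega)
      omega
    have := up_c p b
    have := hw b (by omega)
    rcases up_or p a with rfl | ⟨a, rfl⟩
    · simp only [ins_eq, ins_up]; omega
    have := up_c p a
    simp only [ins_up]
    exact g1 a b c d (by omega) (by omega) (by omega) (by omega)

lemma suf_mono {q : ℕ} (h : suf n w p) (hq : p ≤ q) : suf n w q :=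
  fun a b h1 h2 h3 => h a b (by omega) h2 h3

lemma suf_act (h : suf n w p) : actB n w p := fun _ b c _ h2 h3 h4 h5 =>
  absurd (h b c h2 h3 h4) (not_le.2 h5)

lemma suf_n : suf n w n := fun _ _ h1 h2 h3 => by omega

lemma suf_hi {q : ℕ} (h : p ≤ q) : suf (n + 1) (insF w p n) (q + 1) ↔ suf n w q := by
  constructor
  · intro g b c h1 h2 h3
    have := g (b + 1) (c + 1) (by omega) (by omega) (by omega)
    rwa [ins_hi (by omega), ins_hi (by omega)] at this
  · intro g b c h1 h2 h3
    obtain ⟨b, rfl⟩ : ∃ j, b = j + 1 := ⟨b - 1, by omega⟩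
    obtain ⟨c, rfl⟩ : ∃ j, c = j + 1 := ⟨c - 1, by omega⟩
    rw [ins_hi (by omega), ins_hi (by omega)]
    exact g b c (by omega) (by omega) (by omega)

lemma suf_lo (hw : ∀ i < n, w i < n) {q : ℕ} (h : q ≤ p) (hp : p < n) :
    ¬ suf (n + 1) (insF w p n) q := by
  intro g
  have := g p (p + 1) (by omega) (by omega) (by omega)
  rw [ins_eq, ins_hi le_rfl] at this
  have := hw p hp
  omega

lemma suf_end (hw : ∀ i < n, w i < n) (q : ℕ) : suf (n + 1) (insF w n n) q ↔ suf n w q := by
  constructor
  · intro g b c h1 h2 h3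
    have := g b c h1 h2 (by omega)
    rwa [ins_lo h3, ins_lo (by omega)] at this
  · intro g b c h1 h2 h3
    rcases Nat.lt_succ_iff_lt_or_eq.1 h3 with g1 | rfl
    · rw [ins_lo g1, ins_lo (by omega)]; exact g b c h1 h2 g1
    · rw [ins_eq, ins_lo h2]; exact (hw b h2).le

lemma actB_lo (hw : ∀ i < n, w i < n) (hp : p ≤ n) {q : ℕ} (h : q ≤ p) :
    actB (n + 1) (insF w p n) q ↔ actB n w q := by
  constructor
  · intro g a b c h1 h2 h3 h4
    have := up_c p a; have := up_c p b; have := up_c p c
    have := g (up p a) (up p b) (up p c) (by omega) (by omega) (by omega) (by omega)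
    simpa only [ins_up] using this
  · intro g a b c h1 h2 h3 h4
    rw [ins_lo (i := a) (by omega)]
    have := hw a (by omega)
    rcases up_or p b with rfl | ⟨b, rfl⟩
    · rw [ins_eq]; omega
    have := up_c p b
    have := hw b (by omega)
    rcases up_or p c with rfl | ⟨c, rfl⟩
    · rw [ins_eq, ins_up]; omega
    have := up_c p c
    simp only [ins_up]
    exact g a b c (by omega) (by omega) (by omega) (by omega)

lemma actB_hi (hw : ∀ i < n, w i < n) {q : ℕ} (h : p ≤ q) (g : ¬ suf n w q) :
    ¬ actB (n + 1) (insF w p n) (q + 1) := by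
  intro h'
  refine g fun b c h1 h2 h3 => ?_
  have := h' p (b + 1) (c + 1) (by omega) (by omega) (by omega) (by omega)
  rw [ins_eq, ins_hi (by omega), ins_hi (by omega)] at this
  have := hw b (by omega)
  omega

lemma lab3 (hw : ∀ i < n, w i < n) (hp : p ≤ n) (h : ¬ suf n w p) :
    l2 S (n + 1) (insF w p n) = l2 S n w ∧
    k2 S (n + 1) (insF w p n) = (((range (n + 1)).filter
      (fun q => ¬ suf n w q ∧ actB n w q ∧ opn S w q)).filter (fun q => q ≤ p)).card := by
  have hp' : p < n := lt_of_le_of_ne hp (fun e => h (e ▸ suf_n))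
  constructor
  · rw [l2, split _ hp, card0 (R := fun q => q ≤ p ∧ _) (fun q _ g => suf_lo hw g.1 hp' g.2.1),
      if_neg (by simp [suf_hi le_rfl, h]), l2]
    simp only [zero_add]
    congr 1
    refine filter_congr fun q _ => ?_
    by_cases g : p < q
    · simp [g, suf_hi g.le, opn_hi g]
    · have : ¬ suf n w q := fun g1 => h (suf_mono g1 (by omega))
      simp [g, this]
  · rw [k2, split _ hp, card0 (R := fun q => p < q ∧ _)
      (fun q _ g => actB_hi hw g.1.le (fun g1 => g.2.1 ((suf_hi g.1.le).2 g1)) g.2.2.1),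
      if_neg (by simp [actB_hi hw le_rfl h]), filter_filter]
    simp only [add_zero]
    congr 1
    refine filter_congr fun q _ => ?_
    by_cases g : q ≤ p
    · have : ¬ suf n w q := fun g1 => h (suf_mono g1 g)
      simp [g, this, suf_lo hw g hp', actB_lo hw hp g, opn_lo g]
    · simp [g]

lemma lab4 (hw : ∀ i < n, w i < n) (hp : p < n) (h : suf n w p) :
    l2 S (n + 1) (insF w p n) = (((range (n + 1)).filter (fun q => suf n w q ∧ opn S w q)).filter
      (fun q => p < q)).card + (if S n then 0 else 1) ∧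
    k2 S (n + 1) (insF w p n) = k2 S n w + l2 S n w -
      (((range (n + 1)).filter (fun q => suf n w q ∧ opn S w q)).filter (fun q => p < q)).card := by
  constructor
  · rw [l2, split _ hp.le, card0 (R := fun q => q ≤ p ∧ _) (fun q _ g => suf_lo hw g.1 hp g.2.1),
      zero_add, add_comm, filter_filter]
    congr 1
    · congr 1
      refine filter_congr fun q _ => ?_
      by_cases g : p < q
      · simp [g, suf_hi g.le, opn_hi g]
      · simp [g]
    · simp [suf_hi le_rfl, h, opn_eq]
  · have e := rk0 ((range (n + 1)).filter (fun q => suf n w q ∧ opn S w q)) p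
    rw [k2, split _ hp.le, card0 (R := fun q => p < q ∧ _)
      (fun q hq g => g.2.1 ((suf_hi g.1.le).2 (suf_mono h g.1.le))),
      if_neg (by simp [suf_hi le_rfl, h]),
      l2, ← e, k2, filter_filter, filter_filter, add_zero]
    have : ((range (n + 1)).filter (fun q => q ≤ p ∧ ¬ suf (n + 1) (insF w p n) q ∧
        actB (n + 1) (insF w p n) q ∧ opn S (insF w p n) q)).card =
        ((range (n + 1)).filter (fun q => ¬ suf n w q ∧ actB n w q ∧ opn S w q)).card +
        ((range (n + 1)).filter (fun q => (suf n w q ∧ opn S w q) ∧ q ≤ p)).card := by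
      simp only [card_filter, ← sum_add_distrib]
      refine sum_congr rfl fun q hq => ?_
      by_cases g : q ≤ p
      · have := suf_act (n := n) (w := w) (p := q)
        by_cases g1 : suf n w q <;>
          simp [g, g1, suf_lo hw g hp, actB_lo hw hp.le g, opn_lo g, this]
      · simp [g, suf_mono h (not_le.1 g).le]
    omega

lemma lab5 (hw : ∀ i < n, w i < n) :
    l2 S (n + 1) (insF w n n) = l2 S n w + (if S n then 0 else 1) ∧
    k2 S (n + 1) (insF w n n) = k2 S n w := by
  constructor
  · simp only [l2, card_filter]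
    rw [sum_range_succ]
    congr 1
    · refine sum_congr rfl fun q hq => ?_
      rw [mem_range] at hq
      simp only [suf_end hw, opn_lo (show q ≤ n by omega)]
    · simp [suf_n, opn_eq]
  · simp only [k2, card_filter]
    rw [sum_range_succ, if_neg (by simp [suf_n]), add_zero]
    refine sum_congr rfl fun q hq => ?_
    rw [mem_range] at hq
    simp only [suf_end hw, opn_lo (show q ≤ n by omega), actB_lo hw le_rfl (show q ≤ n by omega)]

lemma stepB (hw : ∀ i < n, w i < n) (φ : ℕ → ℕ → ℤ) :
    ∑ p ∈ range (n + 1), (if AvB (n + 1) (insF w p n) ∧ DS S (n + 1) (insF w p n) then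
      φ (l2 S (n + 1) (insF w p n)) (k2 S (n + 1) (insF w p n)) else 0) =
    if AvB n w ∧ DS S n w then T (if S n then 0 else 1) φ (l2 S n w) (k2 S n w) else 0 := by
  by_cases h : AvB n w ∧ DS S n w
  swap
  · rw [if_neg h]
    refine sum_eq_zero fun p hp => if_neg ?_
    have hp' : p ≤ n := by rw [mem_range] at hp; omega
    rw [AvB_ins hw hp', DS_ins hw hp']
    exact fun g => h ⟨g.1.1, g.2.1⟩
  have on := opn_end h.2
  rw [if_pos h, sum_congr rfl (g := fun p => if (actB n w p ∧ opn S w p) ∧ (S n → p < n) then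
      φ (l2 S (n + 1) (insF w p n)) (k2 S (n + 1) (insF w p n)) else 0) (fun p hp => by
    have hp' : p ≤ n := by rw [mem_range] at hp; omega
    refine if_congr ?_ rfl rfl
    rw [AvB_ins hw hp', DS_ins hw hp']
    tauto), sum_allowed S n (fun q => suf n w q ∧ opn S w q)
      (fun q => ¬ suf n w q ∧ actB n w q ∧ opn S w q) (fun q => actB n w q ∧ opn S w q) _
      (fun q => by have := suf_act (n := n) (w := w) (p := q); tauto) (fun q => by tauto)
      ⟨suf_act suf_n, on⟩, T]
  have e1 : ∑ p ∈ (range (n + 1)).filter (fun q => ¬ suf n w q ∧ actB n w q ∧ opn S w q),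
      φ (l2 S (n + 1) (insF w p n)) (k2 S (n + 1) (insF w p n)) =
      ∑ i ∈ range (k2 S n w), φ (l2 S n w) (i + 1) := by
    refine Eq.trans ?_ (rk1 _ (fun j => φ (l2 S n w) j))
    refine sum_congr rfl fun p hp => ?_
    rw [mem_filter, mem_range] at hp
    have := lab3 (S := S) hw (by omega) hp.2.1
    rw [this.1, this.2]
  have e2 := rk2 ((range (n + 1)).filter (fun q => suf n w q ∧ opn S w q))
    (fun j => φ (j + if S n then 0 else 1) (k2 S n w + l2 S n w - j))
  have hn : n ∈ (range (n + 1)).filter (fun q => suf n w q ∧ opn S w q) := by simp [suf_n, on]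
  rw [← add_sum_erase _ _ hn, card0 (R := fun q => n < q)
    (fun q hq => by have := mem_range.1 (mem_filter.1 hq).1; omega),
    sum_congr rfl (s₁ := erase _ n)
      (g := fun p => φ (l2 S (n + 1) (insF w p n)) (k2 S (n + 1) (insF w p n))) (fun p hp => by
      rw [mem_erase, mem_filter, mem_range] at hp
      have := lab4 (S := S) (p := p) hw (by omega) hp.2.2.1
      rw [this.1, this.2])] at e2
  rw [e1, ← add_sum_erase _ _ hn, (lab5 hw).1, (lab5 hw).2]
  have e3 := (sum_range_succ (fun j => φ (j + if S n then 0 else 1) (k2 S n w + l2 S n w - j))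
    (l2 S n w)).symm.trans (sum_range_succ' _ _)
  have e4 := (sum_range_succ (fun j => φ (l2 S n w) j) (k2 S n w)).symm.trans (sum_range_succ' _ _)
  change _ = ∑ j ∈ range (l2 S n w), _ at e2
  rw [Nat.add_sub_cancel] at e3
  by_cases hS : S n
  · simp only [hS, if_true, add_zero] at *
    linear_combination e2 + e3 - e4
  · simp only [hS, if_false, one_ne_zero] at *
    linear_combination e2 + e3

end Pool.Agent.H.MP_911b3a_co
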