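import Pool.Agent.H.MP_911b3a_co.C

set_option autoImplicit false

namespace Pool.Agent.H.MP_911b3a_co

open Finset Equiv Classical

variable {n : ℕ}

def val (π : Perm (Fin n)) (i : ℕ) : ℕ := if h : i < n then π ⟨i, h⟩ else 0

lemma val_fin (π : Perm (Fin n)) (i : Fin n) : val π i = π i := by simp [val]

lemma val_lt (π : Perm (Fin n)) : ∀ i < n, val π i < n := fun i h => by simp [val, h]

def ins (p : Fin (n + 1)) (π : Perm (Fin n)) : Perm (Fin (n + 1)) :=
  (finSuccEquiv' p).trans (π.optionCongr.trans finSuccEquivLast.symm)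

lemma ins_p (p : Fin (n + 1)) (π : Perm (Fin n)) : ins p π p = Fin.last n := by simp [ins]

lemma ins_sa (p : Fin (n + 1)) (π : Perm (Fin n)) (i : Fin n) :
    ins p π (p.succAbove i) = (π i).castSucc := by simp [ins]

lemma ins_bij : Function.Bijective (fun x : Fin (n + 1) × Perm (Fin n) => ins x.1 x.2) := by
  rw [Fintype.bijective_iff_injective_and_card]
  refine ⟨?_, by simp [Fintype.card_perm, Nat.factorial_succ]⟩
  rintro ⟨c, w⟩ ⟨c', w'⟩ h
  simp only at h
  have h0 : c = c' := (ins c' w').injective (by rw [ins_p, ← h, ins_p])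
  subst h0
  refine Prod.ext rfl (Equiv.ext fun i => ?_)
  have := congrArg (fun z : Perm (Fin (n + 1)) => z (c.succAbove i)) h
  simpa only [ins_sa, Fin.castSucc_inj] using this

lemma val_ins (p : Fin (n + 1)) (π : Perm (Fin n)) : val (ins p π) = insF (val π) p n := by
  funext i
  rcases up_or p i with rfl | ⟨i, rfl⟩
  · rw [val_fin, ins_p, ins_eq]; rfl
  · rw [ins_up]
    have := up_c p i
    have := p.2
    by_cases h : i < n
    · have e : up p i = (p.succAbove ⟨i, h⟩ : ℕ) := by
        by_cases g : (⟨i, h⟩ : Fin n).castSucc < p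
        · rw [Fin.succAbove_of_castSucc_lt _ _ g]
          exact if_pos g
        · rw [Fin.succAbove_of_le_castSucc _ _ (not_lt.1 g)]
          exact if_neg g
      rw [e, val_fin, ins_sa]
      simp [val, h]
    · simp only [val]
      rw [dif_neg h, dif_neg (by omega)]

lemma main (S : ℕ → Prop) (n : ℕ) : ∀ φ : ℕ → ℕ → ℤ,
    ∑ π : Perm (Fin n), (if AvA n (val π) ∧ DS S n (val π) then
      φ (l1 S n (val π)) (k1 S n (val π)) else 0) =
    ∑ π : Perm (Fin n), (if AvB n (val π) ∧ DS S n (val π) then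
      φ (l2 S n (val π)) (k2 S n (val π)) else 0) := by
  induction n with
  | zero =>
    intro φ
    refine sum_congr rfl fun π _ => ?_
    simp [AvA, AvB, l1, l2, k1, k2, pre, suf, filter_singleton]
  | succ n ih =>
    intro φ
    rw [← ins_bij.sum_comp, ← ins_bij.sum_comp, Fintype.sum_prod_type_right,
      Fintype.sum_prod_type_right]
    simp only [val_ins]
    refine (sum_congr rfl fun π _ => ?_).trans ((ih (T (if S n then 0 else 1) φ)).trans
      (sum_congr rfl fun π _ => ?_))
    · rw [← stepA (val_lt π), ← Fin.sum_univ_eq_sum_range]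
    · rw [← stepB (val_lt π), ← Fin.sum_univ_eq_sum_range]

lemma incl {α β : Type*} [Fintype β] [DecidableEq β] (A B : Finset α) (d : α → Finset β)
    (h : ∀ T, (A.filter (fun a => T ⊆ d a)).card = (B.filter (fun a => T ⊆ d a)).card) (T : Finset β) :
    (A.filter (fun a => d a = T)).card = (B.filter (fun a => d a = T)).card := by
  induction T using WellFoundedGT.induction with
  | ind T ih =>
    have e : ∀ C : Finset α, (C.filter (fun a => T ⊆ d a)).card = (C.filter (fun a => d a = T)).card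
        + ∑ U ∈ univ.filter (fun U => T < U), (C.filter (fun a => d a = U)).card := by
      intro C
      simp only [card_filter]
      rw [sum_comm, ← sum_add_distrib]
      refine sum_congr rfl fun a _ => ?_
      rw [sum_ite_eq]
      by_cases g : d a = T
      · simp [g]
      · have : T ⊆ d a ↔ T < d a := ⟨fun g1 => lt_of_le_of_ne g1 (Ne.symm g), fun g1 => g1.le⟩
        simp [g, this]
    have e1 := h T
    rw [e, e, sum_congr rfl (fun U hU => ih U (mem_filter.1 hU).2)] at e1
    exact Nat.add_right_cancel e1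

noncomputable def dt (π : Perm (Fin n)) : Finset (Fin n) :=
  univ.filter (fun v => ∃ j : Fin n, j.val = (π.symm v).val + 1 ∧ π j < v)

lemma sub_dt (T : Finset (Fin n)) (π : Perm (Fin n)) :
    T ⊆ dt π ↔ DS (fun v => ∃ t ∈ T, t.val = v) n (val π) := by
  constructor
  · rintro h i hi ⟨t, ht, e⟩
    obtain ⟨j, h1, h2⟩ := (mem_filter.1 (h ht)).2
    have e1 : t = π ⟨i, hi⟩ := Fin.ext (by rw [e, ← val_fin])
    subst e1
    rw [symm_apply_apply] at h1
    simp only at h1
    rw [← h1, val_fin, ← e]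
    exact ⟨j.2, h2⟩
  · intro h t ht
    obtain ⟨h1, h2⟩ := h (π.symm t) (π.symm t).2 ⟨t, ht, by rw [val_fin, apply_symm_apply]⟩
    refine mem_filter.2 ⟨mem_univ _, ⟨_, h1⟩, rfl, ?_⟩
    rw [val_fin, apply_symm_apply] at h2
    rw [Fin.lt_def, ← val_fin]
    exact h2

theorem destop (T : Finset (Fin n)) :
    ((univ.filter (fun π : Perm (Fin n) => AvA n (val π))).filter (fun π => dt π = T)).card =
    ((univ.filter (fun π : Perm (Fin n) => AvB n (val π))).filter (fun π => dt π = T)).card := by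
  refine incl _ _ _ (fun T => ?_) T
  have := main (fun v => ∃ t ∈ T, t.val = v) n (fun _ _ => 1)
  rw [filter_filter, filter_filter, card_filter, card_filter]
  simp only [sub_dt]
  exact_mod_cast this

lemma dumont (π : Perm (Fin n)) : (∀ i : Fin n,
      (Even ((π i).val + 1) → ∃ j : Fin n, j.val = i.val + 1 ∧ π j < π i) ∧
      (Odd ((π i).val + 1) → (i.val + 1 = n ∨ ∃ j : Fin n, j.val = i.val + 1 ∧ π i < π j))) ↔
    dt π = univ.filter (fun v : Fin n => Even (v.val + 1)) := by
  constructor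
  · intro h
    ext v
    obtain ⟨i, rfl⟩ := π.surjective v
    simp only [dt, mem_filter, mem_univ, true_and, symm_apply_apply]
    refine ⟨fun ⟨j, h1, h2⟩ => ?_, (h i).1⟩
    by_contra g
    rcases (h i).2 (Nat.not_even_iff_odd.1 g) with g1 | ⟨k, g1, g2⟩
    · have := j.2; omega
    · obtain rfl : j = k := Fin.ext (by omega)
      exact lt_asymm h2 g2
  · intro h i
    have e := Finset.ext_iff.1 h (π i)
    simp only [dt, mem_filter, mem_univ, true_and, symm_apply_apply] at e
    refine ⟨e.2, fun g => ?_⟩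
    by_cases g1 : i.val + 1 < n
    · refine Or.inr ⟨⟨_, g1⟩, rfl, ?_⟩
      rcases lt_trichotomy (π i) (π ⟨_, g1⟩) with g2 | g2 | g2
      · exact g2
      · have := congrArg Fin.val (π.injective g2)
        simp at this
      · exact absurd (e.1 ⟨_, rfl, g2⟩) (Nat.not_even_iff_odd.2 g)
    · have := i.2
      exact Or.inl (by omega)

lemma sm4 {a b c d : Fin n} (h1 : a < b) (h2 : b < c) (h3 : c < d) :
    StrictMono (![a, b, c, d] : Fin 4 → Fin n) := by
  refine Fin.strictMono_iff_lt_succ.2 fun i => ?_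
  fin_cases i <;> simpa

lemma avA (π : Perm (Fin n)) : (¬ ∃ f : Fin 4 → Fin n, StrictMono f ∧
      ∀ a b : Fin 4, (π (f a) < π (f b) ↔
        (![1, 0, 3, 2] : Fin 4 → ℕ) a < (![1, 0, 3, 2] : Fin 4 → ℕ) b)) ↔ AvA n (val π) := by
  constructor
  · intro h a b c d h1 h2 h3 h4 h5 h6
    by_contra h7
    refine h ⟨![⟨a, by omega⟩, ⟨b, by omega⟩, ⟨c, by omega⟩, ⟨d, h4⟩], sm4 h1 h2 h3, fun x y => ?_⟩
    fin_cases x <;> fin_cases y <;> simp [Fin.lt_def, ← val_fin] <;> omega
  · rintro h ⟨f, hf, g⟩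
    have := h (f 0) (f 1) (f 2) (f 3) (hf (by decide)) (hf (by decide)) (hf (by decide)) (f 3).2
    simp only [val_fin] at this
    exact absurd (this ((g 1 0).2 (by simp)) ((g 0 3).2 (by simp))) (not_le.2 ((g 3 2).2 (by simp)))

lemma avB (π : Perm (Fin n)) : (¬ ∃ f : Fin 4 → Fin n, StrictMono f ∧
      ∀ a b : Fin 4, (π (f a) < π (f b) ↔
        (![2, 3, 1, 0] : Fin 4 → ℕ) a < (![2, 3, 1, 0] : Fin 4 → ℕ) b)) ↔ AvB n (val π) := by
  constructor
  · intro h a b c d h1 h2 h3 h4 h5 h6
    by_contra h7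
    refine h ⟨![⟨a, by omega⟩, ⟨b, by omega⟩, ⟨c, by omega⟩, ⟨d, h4⟩], sm4 h1 h2 h3, fun x y => ?_⟩
    fin_cases x <;> fin_cases y <;> simp [Fin.lt_def, ← val_fin] <;> omega
  · rintro h ⟨f, hf, g⟩
    have := h (f 0) (f 1) (f 2) (f 3) (hf (by decide)) (hf (by decide)) (hf (by decide)) (f 3).2
    simp only [val_fin] at this
    exact absurd (this ((g 3 2).2 (by simp)) ((g 2 0).2 (by simp))) (not_le.2 ((g 0 1).2 (by simp)))

end Pool.Agent.H.MP_911b3a_co
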